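import Pool.Agent.Helper70.ML.St

/-!
# Project ML (MP_a2f62e_al), module FIN (helper80)
-/

set_option autoImplicit false

namespace Pool.Agent.Helper80.ML

open Pool.Agent.Helper70.ML Pool.Agent.Helper75.MX

theorem hFIN (hMAIN : StMAIN) : StFIN := by
  intro C hC G _ _ h
  have hyp : Hyp C G := by
    intro H hH N hN hQO hAlt
    obtain ⟨h1, h2, h3⟩ := hQO
    obtain ⟨⟨k, hk⟩, hm⟩ := h H hH N h1 h2 h3 hAlt
    have h4 : IsMixing (H ⧸ N) (mixlen (H ⧸ N)) := Nat.sInf_mem (s := {k | IsMixing (H ⧸ N) k}) ⟨k, hk⟩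
    obtain ⟨l, hl, ho, he⟩ := isMixing_iff.1 h4
    exact ⟨mixlen (H ⧸ N), ⟨l, hl.le, ho, he⟩, hm⟩
  have key : TS G → Good C G := hMAIN C hC G hyp
  refine ⟨⟨ts_of_mixable, fun hTS => ?_⟩, fun hm => ?_⟩
  · obtain ⟨k, hk, _⟩ := key hTS
    obtain ⟨m, _, hm⟩ := exists_isMixing hk
    exact ⟨m, hm⟩
  · obtain ⟨k, hk, hb⟩ := key (ts_of_mixable hm)
    obtain ⟨j, hj, hjm⟩ := exists_isMixing hk
    have hle : mixlen G ≤ k := (Nat.sInf_le hjm).trans hj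
    exact le_trans (by exact_mod_cast hle) hb

end Pool.Agent.Helper80.ML
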