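import Pool.Agent.Helper70.ML.St

/-!
# Project ML (MP_a2f62e_al), module LIF: lifts along a central extension of odd order (helper80)
-/

set_option autoImplicit false

namespace Pool.Agent.Helper80.ML

open Pool.Agent.Helper70.ML Pool.Agent.Helper75.MX

theorem hLIF : StLIF := by
  intro G H _ _ _ ψ hsurj hcen hodd
  obtain ⟨m, hm⟩ := hodd
  have hpow : ∀ z ∈ ψ.ker, z ^ (2 * m + 1) = 1 := by
    intro z hz
    have h1 : (⟨z, hz⟩ : ψ.ker) ^ Nat.card ψ.ker = 1 := pow_card_eq_one'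
    rw [hm] at h1
    have h2 := congrArg Subtype.val h1
    simpa using h2
  have hc : ∀ z ∈ ψ.ker, ∀ g : G, g * z = z * g := fun z hz g => Subgroup.mem_center_iff.1 (hcen hz) g
  have hsq : ∀ z ∈ ψ.ker, ∃ w ∈ ψ.ker, w * w = z := by
    intro z hz
    refine ⟨z ^ (m + 1), Subgroup.pow_mem _ hz _, ?_⟩
    rw [← pow_add, show m + 1 + (m + 1) = 2 * m + 1 + 1 by ring, pow_succ, hpow z hz, one_mul]
  have h4 : ∀ z ∈ ψ.ker, z * z = 1 → z = 1 := by
    intro z hz h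
    have h1 := hpow z hz
    rw [pow_succ, pow_mul, pow_two, h, one_pow, one_mul] at h1
    exact h1
  refine ⟨?_, ?_, ?_, h4⟩
  · intro t ht
    obtain ⟨s, rfl⟩ := hsurj t
    have hs : s * s ∈ ψ.ker := by
      rw [MonoidHom.mem_ker, map_mul]; exact ht
    obtain ⟨w, hw, hww⟩ := hsq _ hs
    have hw' : w⁻¹ ∈ ψ.ker := Subgroup.inv_mem _ hw
    refine ⟨s * w⁻¹, ?_, ?_⟩
    · rw [map_mul, MonoidHom.mem_ker.1 hw', mul_one]
    · have e : s * w⁻¹ * (s * w⁻¹) = s * s * (w⁻¹ * w⁻¹) := by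
        rw [mul_assoc s w⁻¹, ← mul_assoc w⁻¹ s, ← hc _ hw' s]; simp only [mul_assoc]
      rw [e, ← hww]; group
  · intro x T hT hx
    have hck : x * (T * x * T⁻¹) ∈ ψ.ker := by
      rw [MonoidHom.mem_ker, map_mul, map_mul, map_mul, map_inv, hx, mul_inv_cancel]
    obtain ⟨w, hw, hww⟩ := hsq _ (Subgroup.inv_mem _ hck)
    refine ⟨w, hw, ?_⟩
    have e1 : T * (x * w) * T⁻¹ = T * x * T⁻¹ * w := by
      rw [← mul_assoc, mul_assoc (T * x) w, ← hc w hw T⁻¹]; simp only [mul_assoc]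
    rw [e1, mul_inv_rev, ← hc _ (Subgroup.inv_mem _ hw) x⁻¹]
    have e2 : T * x * T⁻¹ = x⁻¹ * (x * (T * x * T⁻¹)) := by group
    have e3 : x * (T * x * T⁻¹) = (w * w)⁻¹ := by rw [hww, inv_inv]
    rw [e2, e3]; group
  · intro a T hT ha
    have hk : a ^ 3 ∈ ψ.ker := by rw [MonoidHom.mem_ker, map_pow]; exact ha
    apply h4 _ hk
    have e1 : T * a ^ 3 * T⁻¹ = (a ^ 3)⁻¹ := by
      have := conj_pow (i := 3) (a := T) (b := a)
      rw [← this, hT, inv_pow]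
    rw [hc _ hk T, mul_assoc, mul_inv_cancel, mul_one] at e1
    nth_rewrite 1 [e1]
    exact inv_mul_cancel _

end Pool.Agent.Helper80.ML
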