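import Pool.Agent.Helper70.ML.St2

/-!
# Project ML (MP_a2f62e_al), module QUO: quotients of mixing groups (helper80)
-/

set_option autoImplicit false

namespace Pool.Agent.Helper80.ML

open Pool.Agent.Helper70.ML Pool.Agent.Helper75.MX

theorem hQUO : StQUO := by
  classical
  intro G _ _ N _ k hk
  obtain ⟨l, hlen, ho, he⟩ := hk
  have : Fintype N := Fintype.ofFinite N
  have hN : N.Normal := inferInstance
  set π := QuotientGroup.mk' N with hπ
  have hT0 : T N (dlt G) = dlt (G ⧸ N) ∘ π := by
    funext x
    simp only [T, dlt, Function.comp]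
    rw [hπ, QuotientGroup.mk'_apply]
    by_cases hx : x ∈ N
    · rw [if_pos ((QuotientGroup.eq_one_iff x).2 hx)]
      rw [Finset.sum_eq_single ⟨x⁻¹, N.inv_mem hx⟩]
      · simp
      · intro m _ hm
        rw [if_neg]
        intro h
        apply hm
        ext
        exact eq_inv_of_mul_eq_one_left h
      · intro h; exact absurd (Finset.mem_univ _) h
    · rw [if_neg (fun h => hx ((QuotientGroup.eq_one_iff x).1 h))]
      apply Finset.sum_eq_zero
      intro m _
      rw [if_neg]
      intro h
      apply hx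
      have : x = (m : G)⁻¹ := eq_inv_of_mul_eq_one_right h
      rw [this]
      exact N.inv_mem m.2
  have h1 : T N (app l (dlt G)) = app (l.map (fun a => (π a.1, a.2))) (dlt (G ⧸ N)) ∘ π := by
    rw [T_app N hN, hT0, app_comp]
  refine ⟨l.map (fun a => (π a.1, a.2)), by rw [List.length_map]; exact hlen, ?_, ?_⟩
  · intro a ha
    rw [List.mem_map] at ha
    obtain ⟨b, hb, rfl⟩ := ha
    exact ho b hb
  · funext y
    obtain ⟨x, rfl⟩ := QuotientGroup.mk'_surjective N y
    have h2 := congrFun h1 x
    rw [he] at h2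
    simp only [T, uni, Function.comp] at h2
    rw [Finset.sum_const, Finset.card_univ, ← Nat.card_eq_fintype_card, nsmul_eq_mul] at h2
    rw [← hπ, ← h2, uni, card_quot N]
    have hM0 : (Nat.card N : ℝ) ≠ 0 := by exact_mod_cast Nat.card_pos.ne'
    have hQ0 : (Nat.card (G ⧸ N) : ℝ) ≠ 0 := by exact_mod_cast Nat.card_pos.ne'
    push_cast
    field_simp

end Pool.Agent.Helper80.ML
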